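import Pool.Agent.H18.Hur2

set_option autoImplicit false

namespace Pool.Agent.Results.MP_e8f8b0_gt.Q2

open Pool.Agent.H18.Hur Set Filter

/-- the Hurewicz property -/
def Hurewicz (Z : Type) [TopologicalSpace Z] : Prop :=
  ∀ 𝒰 : ℕ → Set (Set Z), (∀ n, (∀ u ∈ 𝒰 n, IsOpen u) ∧ ⋃₀ 𝒰 n = univ) →
    ∃ ℱ : ℕ → Set (Set Z), (∀ n, (ℱ n).Finite ∧ ℱ n ⊆ 𝒰 n) ∧ ∀ x, ∀ᶠ n in atTop, x ∈ ⋃₀ ℱ n

/-- the bounding number -/
noncomputable def bb : Cardinal.{0} :=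
  sInf {κ | ∃ F : Set (ℕ → ℕ), Cardinal.mk F = κ ∧
    ¬ ∃ g : ℕ → ℕ, ∀ f ∈ F, ∀ᶠ n in atTop, f n ≤ g n}

/-- `κ`-concentrated on a countable subset -/
def Concentrated (κ : Cardinal.{0}) (X : Set (ℕ → Bool)) : Prop :=
  κ ≤ Cardinal.mk X ∧ ∃ A ⊆ X, A.Countable ∧
    ∀ U : Set (ℕ → Bool), IsOpen U → A ⊆ U → Cardinal.mk (X \ U : Set (ℕ → Bool)) < κ

/-- Hurewicz `ℵ₁`-concentrated sets are productively Hurewicz; hence so are Hurewicz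
`𝔟`-concentrated sets under CH or `𝔟 = ℵ₁`. -/
theorem result :
    (∀ X Y : Set (ℕ → Bool), Concentrated (Cardinal.aleph 1) X → Hurewicz X → Hurewicz Y →
      Hurewicz (X ×ˢ Y : Set ((ℕ → Bool) × (ℕ → Bool)))) ∧
    ((Cardinal.continuum.{0} = Cardinal.aleph 1 ∨ bb = Cardinal.aleph 1) →
      ∀ X Y : Set (ℕ → Bool), Concentrated bb X → Hurewicz X → Hurewicz Y →
        Hurewicz (X ×ˢ Y : Set ((ℕ → Bool) × (ℕ → Bool)))) := by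
  have key : ∀ κ ≤ Cardinal.aleph 1, ∀ X Y : Set (ℕ → Bool), Concentrated κ X → Hurewicz X →
      Hurewicz Y → Hurewicz (X ×ˢ Y : Set ((ℕ → Bool) × (ℕ → Bool))) := by
    rintro κ hκ X Y ⟨-, A, a1, a2, a3⟩ hX hY
    exact hur_of_sc (sc_prod a2 a1 (fun U u1 u2 =>
      (Cardinal.countable_iff_lt_aleph_one _).mpr ((a3 U u1 u2).trans_le hκ))
      (sc_of_hur hX) (sc_of_hur hY))
  refine ⟨key _ le_rfl, fun h => key _ ?_⟩
  rcases h with h | h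
  · rw [← h]
    refine csInf_le' ⟨univ, by simp, ?_⟩
    rintro ⟨g, hg⟩
    obtain ⟨n, hn⟩ := (hg (fun n => g n + 1) trivial).exists
    omega
  · exact h.le

end Pool.Agent.Results.MP_e8f8b0_gt.Q2
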